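import Pool.Agent.Lib.MP_b5d711_an.Construct

set_option autoImplicit false

open Set MeasureTheory Filter Topology
open scoped ENNReal NNReal

namespace Pool.Agent.Results.MP_b5d711_an.NoTrichotomy

/-- The composition `φ_{w_1} ∘ ⋯ ∘ φ_{w_n}` along a finite word `w = [w_1, …, w_n]`
(the identity for the empty word). -/
def wmap {d : ℕ} (φ : ℕ → EuclideanSpace ℝ (Fin d) → EuclideanSpace ℝ (Fin d)) (w : List ℕ) :
    EuclideanSpace ℝ (Fin d) → EuclideanSpace ℝ (Fin d) :=
  w.foldr (fun e g => φ e ∘ g) id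

/-- `φ = (φ_e)_{e ∈ ℕ}` is a conformal iterated function system on `X ⊆ ℝ^d`, in the sense of
Mauldin and Urbanski, with alphabet `ℕ`. -/
structure IsCIFS {d : ℕ} (X : Set (EuclideanSpace ℝ (Fin d)))
    (φ : ℕ → EuclideanSpace ℝ (Fin d) → EuclideanSpace ℝ (Fin d)) : Prop where
  /-- `X` is compact. -/
  isCompact : IsCompact X
  /-- `X` is connected (and nonempty). -/
  isConnected : IsConnected X
  /-- `X` is the closure of its interior. -/
  regular : X = closure (interior X)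
  /-- `φ_e` maps `X` to `X`. -/
  mapsTo : ∀ e, MapsTo (φ e) X X
  /-- `φ_e` is injective on `X`. -/
  injOn : ∀ e, InjOn (φ e) X
  /-- One contraction constant `s < 1` for all the maps. -/
  contraction : ∃ s : ℝ, 0 ≤ s ∧ s < 1 ∧ ∀ e, ∀ x ∈ X, ∀ y ∈ X, dist (φ e x) (φ e y) ≤ s * dist x y
  /-- Open set condition. -/
  osc : ∀ a b, a ≠ b → Disjoint (φ a '' interior X) (φ b '' interior X)
  /-- Cone condition: every boundary point `x` is the vertex of an open cone of angle `α`, axis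
  `u` and height `l` contained in the interior. -/
  cone : ∃ α > (0 : ℝ), ∃ l > (0 : ℝ), ∀ x ∈ frontier X, ∃ u : EuclideanSpace ℝ (Fin d),
    ‖u‖ = 1 ∧ ∀ y, y ≠ x → dist y x < l → InnerProductGeometry.angle u (y - x) < α →
      y ∈ interior X
  /-- There is an open connected `V ⊇ X` such that every `φ_e` is an injective `C^1` map of `V`
  into `V`, conformal at every point, with Hölder continuous derivative, and such that bounded
  distortion holds on `V`. -/
  extension : ∃ V : Set (EuclideanSpace ℝ (Fin d)), IsOpen V ∧ IsConnected V ∧ X ⊆ V ∧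
    (∀ e, MapsTo (φ e) V V) ∧ (∀ e, InjOn (φ e) V) ∧ (∀ e, ContDiffOn ℝ 1 (φ e) V) ∧
    (∀ e, ∀ x ∈ V, IsConformalMap (fderiv ℝ (φ e) x)) ∧
    (∃ ε > (0 : ℝ), ∃ C : ℝ, ∀ e, ∀ x ∈ V, ∀ y ∈ V,
      ‖fderiv ℝ (φ e) x - fderiv ℝ (φ e) y‖ ≤ C * dist x y ^ ε) ∧
    (∃ K : ℝ, 1 ≤ K ∧ ∀ w : List ℕ, ∀ x ∈ V, ∀ y ∈ V,
      ‖fderiv ℝ (wmap φ w) y‖ ≤ K * ‖fderiv ℝ (wmap φ w) x‖)

/-- The limit set `J_F = ⋃_{ω ∈ F^ℕ} ⋂_n φ_{ω_0} ∘ ⋯ ∘ φ_{ω_{n-1}} (X)`. -/
def limitSet {d : ℕ} (X : Set (EuclideanSpace ℝ (Fin d)))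
    (φ : ℕ → EuclideanSpace ℝ (Fin d) → EuclideanSpace ℝ (Fin d)) (F : Set ℕ) :
    Set (EuclideanSpace ℝ (Fin d)) :=
  ⋃ ω ∈ {ω : ℕ → ℕ | ∀ n, ω n ∈ F}, ⋂ n : ℕ, wmap φ ((List.range n).map ω) '' X

/-- The dimension spectrum `{dim_H J_F : ∅ ≠ F ⊆ ℕ}`, as a set of nonnegative reals. -/
def spectrum {d : ℕ} (X : Set (EuclideanSpace ℝ (Fin d)))
    (φ : ℕ → EuclideanSpace ℝ (Fin d) → EuclideanSpace ℝ (Fin d)) : Set ℝ :=
  {s | 0 ≤ s ∧ ∃ F : Set ℕ, F.Nonempty ∧ dimH (limitSet X φ F) = ENNReal.ofReal s}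

/-- Local Hausdorff dimension of `F ⊆ ℝ` at `x`. -/
noncomputable def localDim (F : Set ℝ) (x : ℝ) : ℝ≥0∞ :=
  ⨅ ε : {ε : ℝ // 0 < ε}, dimH (F ∩ Metric.ball x ε)

/-- Type I: a finite union of (possibly degenerate) intervals. -/
def TypeI (F : Set ℝ) : Prop :=
  ∃ A : Set (Set ℝ), A.Finite ∧ (∀ I ∈ A, I.OrdConnected) ∧ ⋃₀ A = F

/-- Type II: Hausdorff dimension zero. -/
def TypeII (F : Set ℝ) : Prop := dimH F = 0

/-- Type III: `dim_x F = min (1, c / x)` for every `x ∈ F`, for some `0 < c < sup F`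
(with `c / 0 = ∞`). -/
def TypeIII (F : Set ℝ) : Prop :=
  ∃ c : ℝ, 0 < c ∧ c < sSup F ∧
    ∀ x ∈ F, localDim F x = min 1 (ENNReal.ofReal c / ENNReal.ofReal x)

open Pool.Agent.Lib.MP_b5d711_an

lemma wmap_nil {d : ℕ} (φ : ℕ → EuclideanSpace ℝ (Fin d) → EuclideanSpace ℝ (Fin d)) :
    wmap φ [] = id := rfl

lemma wmap_cons {d : ℕ} (φ : ℕ → EuclideanSpace ℝ (Fin d) → EuclideanSpace ℝ (Fin d))
    (e : ℕ) (w : List ℕ) : wmap φ (e :: w) = φ e ∘ wmap φ w := rfl

lemma wmap_snoc {d : ℕ} (φ : ℕ → EuclideanSpace ℝ (Fin d) → EuclideanSpace ℝ (Fin d))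
    (e : ℕ) (w : List ℕ) : wmap φ (w ++ [e]) = wmap φ w ∘ φ e := by
  induction w with
  | nil => rfl
  | cons a w ih =>
    rw [List.cons_append, wmap_cons, wmap_cons, ih]; rfl

section

variable {d : ℕ} {r t : ℕ → ℝ} (u : EuclideanSpace ℝ (Fin d))

lemma wmap_affine (h : Sys r t) (w : List ℕ) : ∃ p : ℝ, 0 < p ∧
    ∃ v : EuclideanSpace ℝ (Fin d), ∀ x, wmap (fun e x => r e • x + t e • u) w x = p • x + v := by
  induction w with
  | nil => exact ⟨1, one_pos, 0, fun x => by simp [wmap_nil]⟩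
  | cons e w ih =>
    obtain ⟨p, hp, v, hv⟩ := ih
    refine ⟨r e * p, mul_pos (h.r_pos e) hp, r e • v + t e • u, fun x => ?_⟩
    rw [wmap_cons, Function.comp_apply, hv, smul_add, smul_smul, add_assoc]

lemma wmap_range (ω : ℕ → ℕ) (n : ℕ) (x : EuclideanSpace ℝ (Fin d)) :
    wmap (fun e x => r e • x + t e • u) ((List.range n).map ω) x
      = (∏ i ∈ Finset.range n, r (ω i)) • x
        + (∑ k ∈ Finset.range n, (∏ i ∈ Finset.range k, r (ω i)) * t (ω k)) • u := by
  induction n generalizing x with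
  | zero => simp [wmap_nil]
  | succ n ih =>
    rw [List.range_succ, List.map_append, List.map_singleton, wmap_snoc, Function.comp_apply, ih,
      Finset.prod_range_succ, Finset.sum_range_succ, smul_add, smul_smul, smul_smul, add_smul]
    abel

lemma sum_eq_P (h : Sys r t) (ω : ℕ → ℕ) (n : ℕ) :
    P r t ω = (∏ i ∈ Finset.range n, r (ω i)) * P r t (sh ω n)
        + ∑ k ∈ Finset.range n, (∏ i ∈ Finset.range k, r (ω i)) * t (ω k) := by
  induction n with
  | zero => simp [sh_zero]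
  | succ n ih =>
    rw [Finset.prod_range_succ, Finset.sum_range_succ]
    conv_lhs => rw [ih, P_sh h ω n]
    ring

lemma limitSet_eq (h : Sys r t) (hu : ‖u‖ = 1) (F : Set ℕ) :
    limitSet (Metric.closedBall 0 1) (fun e x => r e • x + t e • u) F
      = (fun c : ℝ => c • u) '' K r t F := by
  ext y
  constructor
  · intro hy
    simp only [limitSet, mem_iUnion, mem_iInter, mem_ofPred_eq, exists_prop] at hy
    obtain ⟨ω, hω, hy⟩ := hy
    refine ⟨P r t ω, ⟨ω, hω, rfl⟩, ?_⟩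
    simp only
    choose x hx hxy using hy
    have h1 : Tendsto (fun n => ∑ k ∈ Finset.range n, (∏ i ∈ Finset.range k, r (ω i)) * t (ω k))
        atTop (𝓝 (P r t ω)) := (summable_P h ω).hasSum.tendsto_sum_nat
    have h2 : Tendsto (fun n => (∏ i ∈ Finset.range n, r (ω i)) • x n) atTop (𝓝 0) := by
      have hg : Tendsto (fun n : ℕ => (1 / 2 : ℝ) ^ n) atTop (𝓝 0) :=
        tendsto_pow_atTop_nhds_zero_of_lt_one (by norm_num) (by norm_num)
      refine squeeze_zero_norm (fun n => ?_) hg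
      have h3 := prod_nonneg h ω n
      have h4 := prod_le h ω n
      have h5 : ‖x n‖ ≤ 1 := by simpa using hx n
      rw [norm_smul, Real.norm_eq_abs, abs_of_pos h3]
      calc _ ≤ (1 / 2 : ℝ) ^ n * 1 := mul_le_mul h4 h5 (norm_nonneg _) (by positivity)
        _ = _ := mul_one _
    have h3 := h2.add (h1.smul_const u)
    rw [zero_add] at h3
    refine tendsto_nhds_unique h3 ?_
    refine tendsto_const_nhds.congr fun n => ?_
    rw [← hxy n, wmap_range]
  · rintro ⟨_, ⟨ω, hω, rfl⟩, rfl⟩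
    simp only [limitSet, mem_iUnion, mem_iInter, mem_ofPred_eq, exists_prop]
    refine ⟨ω, hω, fun n => ⟨P r t (sh ω n) • u, ?_, ?_⟩⟩
    · rw [mem_closedBall_zero_iff, norm_smul, hu, mul_one, Real.norm_eq_abs]
      exact abs_P_le h _
    · rw [wmap_range, smul_smul, ← add_smul, ← sum_eq_P h ω n]

lemma dimH_limitSet (h : Sys r t) (hu : ‖u‖ = 1) (F : Set ℕ) :
    dimH (limitSet (Metric.closedBall 0 1) (fun e x => r e • x + t e • u) F)
      = dimH (K r t F) := by
  rw [limitSet_eq u h hu F]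
  apply Isometry.dimH_image
  apply Isometry.of_dist_eq
  intro a b
  rw [dist_eq_norm, ← sub_smul, norm_smul, hu, mul_one, Real.dist_eq, Real.norm_eq_abs]

lemma spectrum_eq (h : Sys r t) (hu : ‖u‖ = 1) :
    spectrum (Metric.closedBall 0 1) (fun e x => r e • x + t e • u) = D r t := by
  ext s
  simp only [spectrum, D, mem_ofPred_eq, dimH_limitSet u h hu]

lemma fderiv_affine (p : ℝ) (v : EuclideanSpace ℝ (Fin d))
    (f : EuclideanSpace ℝ (Fin d) → EuclideanSpace ℝ (Fin d)) (hf : ∀ x, f x = p • x + v)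
    (x : EuclideanSpace ℝ (Fin d)) :
    fderiv ℝ f x = p • ContinuousLinearMap.id ℝ (EuclideanSpace ℝ (Fin d)) := by
  have : f = fun x => p • x + v := funext hf
  rw [this]
  have h1 : HasFDerivAt (fun x : EuclideanSpace ℝ (Fin d) => p • x + v)
      (p • ContinuousLinearMap.id ℝ (EuclideanSpace ℝ (Fin d))) x :=
    ((hasFDerivAt_id x).const_smul p).add_const v
  exact h1.fderiv

lemma isCIFS (h : Sys r t) (hu : ‖u‖ = 1) :
    IsCIFS (Metric.closedBall 0 1) (fun e x => r e • x + t e • u) := by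
  have hnorm : ∀ e (x : EuclideanSpace ℝ (Fin d)),
      ‖r e • x + t e • u‖ ≤ r e * ‖x‖ + |t e| := by
    intro e x
    refine (norm_add_le _ _).trans ?_
    rw [norm_smul, norm_smul, hu, mul_one, Real.norm_eq_abs, Real.norm_eq_abs,
      abs_of_pos (h.r_pos e)]
  have hinj : ∀ e, Function.Injective (fun x : EuclideanSpace ℝ (Fin d) => r e • x + t e • u) := by
    intro e x y hxy
    have h1 : r e • x = r e • y := by simpa using hxy
    exact smul_right_injective _ (h.r_pos e).ne' h1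
  refine ⟨isCompact_closedBall _ _, ?_, ?_, ?_, fun e => (hinj e).injOn, ?_, ?_, ?_, ?_⟩
  · exact ⟨⟨0, by simp⟩, (convex_closedBall _ _).isPreconnected⟩
  · rw [interior_closedBall _ one_ne_zero, closure_ball _ one_ne_zero]
  · intro e x hx
    rw [mem_closedBall_zero_iff] at hx ⊢
    refine (hnorm e x).trans ?_
    have h1 := h.bd e
    have h2 := h.r_pos e
    nlinarith
  · refine ⟨1 / 2, by norm_num, by norm_num, fun e x _ y _ => ?_⟩
    rw [dist_eq_norm, dist_eq_norm]
    have : r e • x + t e • u - (r e • y + t e • u) = r e • (x - y) := by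
      rw [smul_sub]; abel
    rw [this, norm_smul, Real.norm_eq_abs, abs_of_pos (h.r_pos e)]
    exact mul_le_mul_of_nonneg_right (h.r_le e) (norm_nonneg _)
  · intro a b hab
    rw [Set.disjoint_left]
    rintro z ⟨x, hx, hxz⟩ ⟨y, hy, hyz⟩
    have hx1 : ‖x‖ ≤ 1 := by simpa using interior_subset hx
    have hy1 : ‖y‖ ≤ 1 := by simpa using interior_subset hy
    have h1 : (t a - t b) • u = r b • y - r a • x := by
      have h2 : r a • x + t a • u = r b • y + t b • u := hxz.trans hyz.symm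
      rw [sub_smul]
      have h3 : t a • u = r b • y + t b • u - r a • x := by rw [← h2]; abel
      rw [h3]; abel
    have h2 : |t a - t b| = ‖r b • y - r a • x‖ := by
      rw [← h1, norm_smul, hu, mul_one, Real.norm_eq_abs]
    have h3 : ‖r b • y - r a • x‖ ≤ r b + r a := by
      refine (norm_sub_le _ _).trans ?_
      rw [norm_smul, norm_smul, Real.norm_eq_abs, Real.norm_eq_abs, abs_of_pos (h.r_pos a),
        abs_of_pos (h.r_pos b)]
      have := h.r_pos a
      have := h.r_pos b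
      nlinarith
    have h4 := h.sep a b hab
    linarith
  · refine ⟨Real.pi / 3, by positivity, 1, one_pos, fun x hx => ⟨-x, ?_, ?_⟩⟩
    · rw [frontier_closedBall _ one_ne_zero, mem_sphere_zero_iff_norm] at hx
      rw [norm_neg, hx]
    · rw [frontier_closedBall _ one_ne_zero, mem_sphere_zero_iff_norm] at hx
      intro y hyx hd hang
      rw [interior_closedBall _ one_ne_zero, mem_ball_zero_iff]
      rw [dist_eq_norm] at hd
      set z := y - x with hz
      have hz0 : 0 < ‖z‖ := norm_pos_iff.2 (sub_ne_zero.2 hyx)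
      have hcos : 1 / 2 < Real.cos (InnerProductGeometry.angle (-x) z) := by
        rw [← Real.cos_pi_div_three]
        apply Real.cos_lt_cos_of_nonneg_of_le_pi (InnerProductGeometry.angle_nonneg _ _) _ hang
        linarith [Real.pi_pos]
      have hin := InnerProductGeometry.cos_angle_mul_norm_mul_norm (-x) z
      rw [norm_neg, hx, one_mul, inner_neg_left] at hin
      have hy : y = x + z := by rw [hz]; abel
      have hsq : ‖y‖ ^ 2 < 1 := by
        rw [hy, norm_add_sq_real, hx]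
        nlinarith
      have := norm_nonneg y
      nlinarith
  · refine ⟨Metric.ball 0 2, Metric.isOpen_ball, ?_, ?_, ?_, fun e => (hinj e).injOn, ?_, ?_,
      ⟨1, one_pos, 0, ?_⟩, ⟨1, le_rfl, ?_⟩⟩
    · exact ⟨⟨0, by simp⟩, (convex_ball _ _).isPreconnected⟩
    · exact Metric.closedBall_subset_ball (by norm_num)
    · intro e x hx
      rw [mem_ball_zero_iff] at hx ⊢
      refine (hnorm e x).trans_lt ?_
      have h1 := h.bd e
      have h2 := h.r_pos e
      have h3 := h.r_le e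
      nlinarith
    · intro e
      apply ContDiff.contDiffOn
      fun_prop
    · intro e x _
      rw [fderiv_affine (r e) (t e • u) _ (fun x => rfl)]
      exact ⟨r e, (h.r_pos e).ne', LinearIsometry.id, by ext; simp⟩
    · intro e x _ y _
      rw [fderiv_affine (r e) (t e • u) _ (fun x => rfl),
        fderiv_affine (r e) (t e • u) _ (fun x => rfl)]
      simp
    · intro w x _ y _
      obtain ⟨p, _, v, hv⟩ := wmap_affine u h w
      rw [fderiv_affine p v _ hv, fderiv_affine p v _ hv, one_mul]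

end

lemma not_typeI : ¬ TypeI (D rr tt) := by
  rintro ⟨A, hA, hI, hU⟩
  have h1 : (D rr tt ∩ Ioi (1 / 2)) ⊆ ⋃ I ∈ A, (I ∩ Ioi (1 / 2)) := by
    rintro x ⟨hx, hx2⟩
    rw [← hU] at hx
    obtain ⟨I, hIA, hxI⟩ := hx
    simp only [mem_iUnion, exists_prop]
    exact ⟨I, hIA, hxI, hx2⟩
  have h2 : ∃ I ∈ A, (I ∩ Ioi (1 / 2 : ℝ)).Infinite := by
    by_contra hcon
    push Not at hcon
    apply infinite_above
    refine (hA.biUnion fun I hI' => ?_).subset h1
    exact hcon I hI'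
  obtain ⟨I, hIA, hinf⟩ := h2
  obtain ⟨a, ha, b, hb, hab⟩ := hinf.nontrivial.exists_lt
  have h3 : Icc a b ⊆ D rr tt ∩ Ioi (1 / 2) := by
    intro x hx
    refine ⟨?_, lt_of_lt_of_le ha.2 hx.1⟩
    rw [← hU]
    exact ⟨I, hIA, (hI I hIA).out ha.1 hb.1 hx⟩
  have h4 : dimH (Icc a b) = 1 := by
    rw [Real.dimH_of_nonempty_interior (by rw [interior_Icc]; exact nonempty_Ioo.2 hab)]
    simp
  have h5 := dimH_mono h3
  rw [h4, dimH_D_above_half] at h5
  exact absurd h5 (by norm_num)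

lemma not_typeII : ¬ TypeII (D rr tt) := by
  intro h
  have h1 := dimH_mono Ioc_subset_D
  have h2 : dimH (Ioc (0 : ℝ) (1 / 4)) = 1 := by
    rw [Real.dimH_of_nonempty_interior
      (by rw [interior_Ioc]; exact nonempty_Ioo.2 (by norm_num))]
    simp
  rw [h2, h] at h1
  exact absurd h1 (by norm_num)

lemma not_typeIII : ¬ TypeIII (D rr tt) := by
  rintro ⟨c, hc, _, hloc⟩
  obtain ⟨x, hxD, hx⟩ := infinite_above.nonempty
  have hx' : (1 / 2 : ℝ) < x := hx
  have h1 := hloc x hxD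
  have h2 : localDim (D rr tt) x = 0 := by
    apply le_antisymm _ bot_le
    unfold localDim
    refine (iInf_le _ (⟨x - 1 / 2, by linarith⟩ : {ε : ℝ // 0 < ε})).trans ?_
    refine le_trans (dimH_mono ?_) dimH_D_above_half.le
    rintro y ⟨hy, hyb⟩
    refine ⟨hy, ?_⟩
    rw [Metric.mem_ball, Real.dist_eq, abs_lt] at hyb
    show (1 / 2 : ℝ) < y
    simp only at hyb
    linarith [hyb.1]
  rw [h2] at h1
  have h3 : (0 : ℝ≥0∞) < min 1 (ENNReal.ofReal c / ENNReal.ofReal x) := by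
    apply lt_min one_pos
    apply ENNReal.div_pos
    · exact (ENNReal.ofReal_pos.2 hc).ne'
    · exact ENNReal.ofReal_ne_top
  rw [← h1] at h3
  exact lt_irrefl _ h3

/-- In every dimension `d ≥ 1` there is a conformal iterated function system, consisting of
similarities of the closed unit ball, whose dimension spectrum is of none of the Types I, II,
III. -/
theorem result (d : ℕ) (hd : 1 ≤ d) :
    ∃ (r : ℕ → ℝ) (b : ℕ → EuclideanSpace ℝ (Fin d)), (∀ e, 0 < r e) ∧
      IsCIFS (Metric.closedBall 0 1) (fun e x => r e • x + b e) ∧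
      ¬ TypeI (spectrum (Metric.closedBall 0 1) (fun e x => r e • x + b e)) ∧
      ¬ TypeII (spectrum (Metric.closedBall 0 1) (fun e x => r e • x + b e)) ∧
      ¬ TypeIII (spectrum (Metric.closedBall 0 1) (fun e x => r e • x + b e)) := by
  set u : EuclideanSpace ℝ (Fin d) := EuclideanSpace.single (⟨0, hd⟩ : Fin d) (1 : ℝ) with hu'
  have hu : ‖u‖ = 1 := by simp [hu']
  refine ⟨rr, fun e => tt e • u, rr_pos, isCIFS u sys_rt hu, ?_, ?_, ?_⟩
  · rw [spectrum_eq u sys_rt hu]; exact not_typeI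
  · rw [spectrum_eq u sys_rt hu]; exact not_typeII
  · rw [spectrum_eq u sys_rt hu]; exact not_typeIII

end Pool.Agent.Results.MP_b5d711_an.NoTrichotomy
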